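import Pool.Agent.helper27.RA.SpecC

/-! Block A_R (ra:), third part, row OUT6 (two phase innerness, disc form; helper46). -/

set_option autoImplicit false

open Complex Metric Set Filter Topology MeasureTheory
open HY (UD T S hd UN RM)
open RT
open PL (cm BS DQ)
open RB (VL LO FLS FL CLS FR TL TLL INN WIN DRT TWJ TWD)

noncomputable section

namespace RA

theorem OUT6 (hUCL : CVL.UCL_stmt) (hTDL : CVL.TDL_stmt) (hMPL : CVL.MPL_stmt) (hIND : IND_stmt) (hTLE : TLE_stmt)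
    (hOUT : OUT5_stmt) (hTRT : TRT_stmt) : OUT6_stmt := by
  intro Y s hY μ hμ P hP x hx U k H χ hk hFR w hw a ha hWIN ρ hρ hTWD
  have hTWJ : TWJ Y x U a H w := hTRT Y s hY μ hμ P hP x hx U k H χ hk hFR w hw a ha hWIN ρ hρ hTWD
  have hO : ∀ (Fj : ℕ → ℂ → ℂ) (F : ℂ → ℂ), TLL Y x U H w Fj F → PL.INR (fun u => u) F :=
    fun Fj F hTLL => hOUT Y s hY μ hμ P hP x hx U k H χ hk hFR w Fj F hTLL hw a ha hWIN hTWJ
  refine ⟨hO, ?_⟩
  intro χ' G hTL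
  obtain ⟨Fj, F₀, hTLL⟩ := hTLE Y s hY x hx U H w hTL.le
  have hINR : PL.INR (fun u => u) F₀ := hO Fj F₀ hTLL
  have h0 : (0 : ℂ) ∈ UD := by simp [HY.UD]
  have hF0 : F₀ 0 = 0 := by
    have h1 : Tendsto (fun j => Fj j 0) U (𝓝 (F₀ 0)) := hTLL.cv.tendsto_at h0
    have h2 : Tendsto (fun j => Fj j 0) U (𝓝 0) :=
      tendsto_const_nhds.congr' (hTLL.lf.mono fun j hj => hj.2.symm)
    exact tendsto_nhds_unique h1 h2
  obtain ⟨hd0, hm0, hr0⟩ := (hMPL s U _ _ _ _ χ χ' _ G hTL.tl).2 Fj F₀ (hTLL.lf.mono fun j hj => hj.1) hTLL.cv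
    (by rw [hF0]; exact h0)
  intro F hFd hFm hFr
  have hTD := (hTDL s U _ _ χ' hTL.tl.fr').1
  have hUC := hUCL s U _ _ χ' hTL.tl.fr'
  refine hIND s (χ' '' UD) 0 χ' hTD hUC F₀ F hd0 hm0 hFd hFm ?_ hINR
  intro u hu
  rw [hr0 u hu, hFr u hu]

end RA
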